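import Pool.Agent.Helper41.AN.Defs

/-!
# Project AN, AN-10: explicit data for every n
-/

set_option autoImplicit false

namespace Pool.Agent.Helper41.AN

open Polynomial

namespace H9Data

section Gen

variable {R : Type*} [CommRing R]

theorem dl (q : R[X]) (m : ℕ) :
    derivative (q ^ m) * q = (m : R[X]) * derivative q * q ^ m := by
  cases m with
  | zero => simp
  | succ m =>
    rw [derivative_pow]
    simp only [Nat.add_sub_cancel, C_eq_natCast]
    ring

theorem sgn_even {n k : ℕ} (hn : 0 < n) (h : n = 2 * k) :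
    (-1 : R) ^ (n * (n - 1) / 2) = (-1) ^ k := by
  have h1 : n * (n - 1) / 2 = k * (n - 1) := by
    rw [h, mul_assoc, Nat.mul_div_cancel_left _ (by norm_num)]
  rw [h1, mul_comm, pow_mul, Odd.neg_one_pow]
  exact ⟨k - 1, by omega⟩

theorem sgn_odd {n k : ℕ} (h : n = 2 * k + 1) :
    (-1 : R) ^ (n * (n - 1) / 2) = (-1) ^ k := by
  have h1 : n * (n - 1) / 2 = n * k := by
    rw [h, Nat.add_sub_cancel, mul_comm, mul_assoc, Nat.mul_div_cancel_left _ (by norm_num),
      mul_comm]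
  rw [h1, pow_mul, Odd.neg_one_pow]
  exact ⟨k, h⟩

theorem c_sq (k : ℕ) : ((-1 : R) ^ k) ^ 2 = 1 := by
  rw [← pow_mul, mul_comm, pow_mul]
  simp

theorem c_pow (k m : ℕ) : ((-1 : R) ^ k) ^ (2 * m) = 1 := by
  rw [pow_mul, c_sq, one_pow]

end Gen

theorem mult_of_rel {p : ℕ} [Fact p.Prime] {D D₀ g : (ZMod p)[X]} {κ : ZMod p} (hD : D ≠ 0)
    (hdvd : ∃ N : ℕ, D ∣ D₀ ^ N)
    (hrel : (derivative g * D - g * derivative D) * D₀ = C κ * D) (hκ : κ ≠ 0)
    (b : AlgebraicClosure (ZMod p))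
    (hb : (D.map (algebraMap (ZMod p) (AlgebraicClosure (ZMod p)))).IsRoot b) :
    ¬ p ∣ (D.map (algebraMap (ZMod p) (AlgebraicClosure (ZMod p)))).rootMultiplicity b := by
  set φ := algebraMap (ZMod p) (AlgebraicClosure (ZMod p)) with hφ
  have hD' : D.map φ ≠ 0 := by
    rwa [Ne, Polynomial.map_eq_zero]
  intro hp
  obtain ⟨Q, hQ, hQ'⟩ := exists_eq_pow_rootMultiplicity_mul_and_not_dvd (D.map φ) hD' b
  set m := (D.map φ).rootMultiplicity b with hm
  obtain ⟨N, hN⟩ := hdvd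
  have hb0 : (D₀.map φ).IsRoot b := by
    have h1 : D.map φ ∣ (D₀.map φ) ^ N := by
      rw [← Polynomial.map_pow]
      exact Polynomial.map_dvd φ hN
    have h2 : ((D₀.map φ) ^ N).IsRoot b := hb.dvd h1
    rw [IsRoot.def, eval_pow] at h2
    exact eq_zero_of_pow_eq_zero h2
  obtain ⟨S, hS⟩ := dvd_iff_isRoot.2 hb0
  have hm0 : ((m : ℕ) : (AlgebraicClosure (ZMod p))[X]) = 0 := by
    rw [CharP.cast_eq_zero_iff (AlgebraicClosure (ZMod p))[X] p]
    exact hp
  have hd1 : derivative ((X - C b) ^ m) = 0 := by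
    rw [derivative_pow, C_eq_natCast, hm0]
    simp
  have hd2 : derivative (D.map φ) = (X - C b) ^ m * derivative Q := by
    rw [hQ, derivative_mul, hd1, zero_mul, zero_add]
  have hr : (derivative (g.map φ) * D.map φ - g.map φ * derivative (D.map φ)) * D₀.map φ =
      C (φ κ) * D.map φ := by
    have h1 := congrArg (Polynomial.map φ) hrel
    simpa only [Polynomial.map_mul, Polynomial.map_sub, derivative_map, Polynomial.map_C] using h1
  have hX : ((X - C b) ^ m : (AlgebraicClosure (ZMod p))[X]) ≠ 0 :=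
    pow_ne_zero _ (X_sub_C_ne_zero b)
  have h3 : (X - C b) ^ m *
      ((X - C b) * ((derivative (g.map φ) * Q - g.map φ * derivative Q) * S)) =
      (X - C b) ^ m * (C (φ κ) * Q) := by
    rw [hd2, hS] at hr
    have h4 : D.map φ = (X - C b) ^ m * Q := hQ
    rw [h4] at hr
    linear_combination hr
  have h4 := mul_left_cancel₀ hX h3
  have h5 : (X - C b) ∣ C (φ κ) * Q := ⟨_, h4.symm⟩
  have h6 : IsUnit (C (φ κ) : (AlgebraicClosure (ZMod p))[X]) := by
    rw [isUnit_C, isUnit_iff_ne_zero]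
    intro h
    exact hκ ((map_eq_zero φ).1 h)
  exact hQ' ((h6.dvd_mul_left).1 h5)

variable {p : ℕ} [Fact p.Prime]

theorem two_ne (hp : p ≠ 2) : (2 : ZMod p) ≠ 0 := by
  intro h
  have h1 : ((2 : ℕ) : ZMod p) = 0 := by exact_mod_cast h
  rw [ZMod.natCast_eq_zero_iff] at h1
  exact hp ((Nat.prime_dvd_prime_iff_eq (Fact.out) Nat.prime_two).1 h1)

theorem aroots_eq {D₀ : (ZMod p)[X]} (s : Multiset (AlgebraicClosure (ZMod p)))
    (h : D₀.map (algebraMap (ZMod p) (AlgebraicClosure (ZMod p))) =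
      (s.map (fun a => X - C a)).prod) : D₀.aroots (AlgebraicClosure (ZMod p)) = s := by
  rw [aroots_def, h, roots_multiset_prod_X_sub_C]

theorem cast_neg_one {m : ℕ} (h : p ∣ m + 1) : ((m : ℕ) : (ZMod p)[X]) = -1 := by
  have h1 : ((m + 1 : ℕ) : (ZMod p)[X]) = 0 := by
    rw [CharP.cast_eq_zero_iff (ZMod p)[X] p]
    exact h
  rw [Nat.cast_add, Nat.cast_one] at h1
  linear_combination h1

theorem exists_half (hp : p ≠ 2) : ∃ h : ZMod p, 2 * h = 1 :=
  ⟨2⁻¹, mul_inv_cancel₀ (two_ne hp)⟩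

/-- Case A. -/
theorem caseA {n k : ℕ} (hn : p + 3 ≤ n) (hk : n = 2 * k) (hpn : ¬ p ∣ n) :
    ∃ A : AData p n, A.Sq := by
  obtain ⟨t, ht⟩ : ∃ t, n = t + p := ⟨n - p, by omega⟩
  have hpt : ¬ p ∣ t := fun h => hpn (ht ▸ (Nat.dvd_add_right h).2 (dvd_refl p))
  have ht0 : (t : ZMod p) ≠ 0 := by
    rw [Ne, ZMod.natCast_eq_zero_iff]
    exact hpt
  have hc0 : (-1 : ZMod p) ^ k ≠ 0 := pow_ne_zero _ (neg_ne_zero.2 one_ne_zero)
  have hκ : -((-1 : ZMod p) ^ k * t) ≠ 0 := neg_ne_zero.2 (mul_ne_zero hc0 ht0)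
  have hrel : (derivative (C ((-1 : ZMod p) ^ k)) * X ^ t -
      C ((-1 : ZMod p) ^ k) * derivative (X ^ t)) * X =
      C (-((-1 : ZMod p) ^ k * t)) * (X ^ t : (ZMod p)[X]) := by
    have h1 := dl (X : (ZMod p)[X]) t
    rw [derivative_X, mul_one] at h1
    rw [derivative_C, C_neg, C_mul, C_eq_natCast]
    linear_combination (- C ((-1 : ZMod p) ^ k)) * h1
  refine ⟨⟨X ^ t, X, C ((-1) ^ k), -((-1) ^ k * t), monic_X_pow t, monic_X,
    dvd_pow_self X (by omega), ⟨t, dvd_rfl⟩, separable_X, ?_, ?_, ?_, ?_, hrel, hκ⟩, ?_⟩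
  · rw [natDegree_X_pow]
    omega
  · rw [natDegree_X_pow]
    omega
  · rw [degree_X_pow]
    refine lt_of_le_of_lt degree_C_le ?_
    have : 0 < t := by omega
    exact_mod_cast this
  · exact fun b hb => mult_of_rel (pow_ne_zero _ X_ne_zero) ⟨t, dvd_rfl⟩ hrel hκ b hb
  · refine ⟨(t : ZMod p) ^ k, ?_⟩
    simp only [aroots_X, Multiset.map_singleton, Multiset.prod_singleton, aeval_C]
    rw [sgn_even (by omega) hk]
    simp only [map_pow, map_neg, map_one, map_mul, map_natCast]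
    have e1 : (-1 : AlgebraicClosure (ZMod p)) ^ n = 1 := by
      rw [hk, pow_mul]
      simp
    have e2 : (-((-1 : AlgebraicClosure (ZMod p)) ^ k * t)) ^ n = (t : AlgebraicClosure (ZMod p)) ^ (2 * k) := by
      rw [hk, Even.neg_pow (even_two_mul k), mul_pow, c_pow, one_mul]
    rw [e1, e2, one_mul, ← pow_mul]
    ring

/-- Case D. -/
theorem caseD (hp : p ≠ 2) {n k : ℕ} (hn : p + 3 ≤ n) (hk : n = 2 * k) (hpn : p ∣ n)
    (h' : n ≠ 2 * p) : ∃ A : AData p n, A.Sq := by
  have hp1 : 2 ≤ p := (Fact.out : p.Prime).two_le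
  obtain ⟨a, ha⟩ := hpn
  have ha2 : 2 < a := by
    rcases Nat.lt_or_ge 2 a with h | h
    · exact h
    · interval_cases a <;> omega
  obtain ⟨m, hm⟩ : ∃ m, n = m + 1 + 2 * p := by
    refine ⟨n - 2 * p - 1, ?_⟩
    have : 3 * p ≤ n := by
      rw [ha, mul_comm 3 p]
      exact Nat.mul_le_mul_left p ha2
    omega
  have hm1 : p ∣ m + 1 := by
    have h1 : p ∣ m + 1 + 2 * p := hm ▸ ⟨a, ha⟩
    exact (Nat.dvd_add_left (dvd_mul_left p 2)).1 h1
  have hm2 : p ≤ m + 1 := Nat.le_of_dvd (by omega) hm1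
  have hcm := cast_neg_one hm1
  have hcp : ((p - 1 : ℕ) : (ZMod p)[X]) = -1 := cast_neg_one (by
    rw [Nat.sub_add_cancel (by omega)])
  have hc0 : (-1 : ZMod p) ^ k ≠ 0 := pow_ne_zero _ (neg_ne_zero.2 one_ne_zero)
  have hκ : 2 * (-1 : ZMod p) ^ k ≠ 0 := mul_ne_zero (two_ne hp) hc0
  set D : (ZMod p)[X] := X ^ 2 * (X - C 1) ^ (p - 1) * (X - C (-1)) ^ m with hD
  set D₀ : (ZMod p)[X] := X * (X - C 1) * (X - C (-1)) with hD₀
  have hDm : D.Monic := ((monic_X_pow 2).mul ((monic_X_sub_C 1).pow _)).mul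
    ((monic_X_sub_C (-1)).pow _)
  have hDd : D.natDegree = 2 + (p - 1) + m := by
    rw [hD, ((monic_X_pow 2).mul ((monic_X_sub_C 1).pow _)).natDegree_mul
      ((monic_X_sub_C (-1)).pow _), (monic_X_pow 2).natDegree_mul ((monic_X_sub_C 1).pow _),
      natDegree_X_pow, natDegree_pow, natDegree_pow, natDegree_X_sub_C, natDegree_X_sub_C]
    ring
  have hdvd : ∃ N : ℕ, D ∣ D₀ ^ N := by
    refine ⟨n, ?_⟩
    rw [hD, hD₀, mul_pow, mul_pow]
    exact mul_dvd_mul (mul_dvd_mul (pow_dvd_pow _ (by omega)) (pow_dvd_pow _ (by omega)))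
      (pow_dvd_pow _ (by omega))
  have hrel : (derivative (C ((-1 : ZMod p) ^ k)) * D - C ((-1 : ZMod p) ^ k) * derivative D) *
      D₀ = C (2 * (-1 : ZMod p) ^ k) * D := by
    have h1 := dl (X - C (1 : ZMod p)) (p - 1)
    have h2 := dl (X - C (-1 : ZMod p)) m
    rw [hcp, derivative_X_sub_C] at h1
    rw [hcm, derivative_X_sub_C] at h2
    have h3 : derivative D = 2 * X * (X - C 1) ^ (p - 1) * (X - C (-1)) ^ m +
        X ^ 2 * derivative ((X - C 1) ^ (p - 1)) * (X - C (-1)) ^ m +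
        X ^ 2 * (X - C 1) ^ (p - 1) * derivative ((X - C (-1)) ^ m) := by
      rw [hD, derivative_mul, derivative_mul, derivative_X_pow]
      simp only [Nat.cast_ofNat, map_ofNat]
      ring
    rw [derivative_C, h3, hD, hD₀, C_mul]
    generalize derivative ((X - C (1 : ZMod p)) ^ (p - 1)) = P' at *
    generalize derivative ((X - C (-1 : ZMod p)) ^ m) = Q' at *
    generalize (X - C (1 : ZMod p)) ^ (p - 1) = P at *
    generalize (X - C (-1 : ZMod p)) ^ m = Q at *
    simp only [C_neg, C_1, map_ofNat] at *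
    linear_combination (-C ((-1 : ZMod p) ^ k) * X ^ 2 * Q * X * (X + 1)) * h1 +
      (-C ((-1 : ZMod p) ^ k) * X ^ 2 * P * X * (X - 1)) * h2
  refine ⟨⟨D, D₀, C ((-1) ^ k), 2 * (-1) ^ k, hDm, ?_, ?_, hdvd, ?_, ?_, ?_, ?_, ?_, hrel, hκ⟩, ?_⟩
  · exact (monic_X.mul (monic_X_sub_C 1)).mul (monic_X_sub_C (-1))
  · exact mul_dvd_mul (mul_dvd_mul (dvd_pow_self X two_ne_zero) (dvd_pow_self _ (by omega)))
      (dvd_pow_self _ (by omega))
  · obtain ⟨h, hh⟩ := exists_half hp
    have hh' : 2 * C h = (1 : (ZMod p)[X]) := by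
      rw [← C_1, ← hh, C_mul, map_ofNat]
    have hd : derivative D₀ = 3 * X ^ 2 - 1 := by
      rw [hD₀, derivative_mul, derivative_mul, derivative_X, derivative_X_sub_C,
        derivative_X_sub_C]
      simp only [C_neg, C_1]
      ring
    rw [separable_def, hd, hD₀]
    refine ⟨-9 * C h * X, 3 * C h * X ^ 2 - 1, ?_⟩
    simp only [C_neg, C_1]
    linear_combination (3 * X ^ 2) * hh'
  · rw [hDd]
    omega
  · rw [hDd]
    omega
  · refine degree_lt_degree ?_
    rw [natDegree_C, hDd]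
    omega
  · exact fun b hb => mult_of_rel hDm.ne_zero hdvd hrel hκ b hb
  · refine ⟨2 ^ k, ?_⟩
    have hr : D₀.aroots (AlgebraicClosure (ZMod p)) = 0 ::ₘ 1 ::ₘ {-1} := by
      apply aroots_eq
      rw [hD₀]
      simp only [Polynomial.map_mul, Polynomial.map_sub, map_X, C_1, C_neg, Polynomial.map_one,
        Polynomial.map_neg, Multiset.map_cons, Multiset.prod_cons, Multiset.map_singleton,
        Multiset.prod_singleton, C_0, sub_zero]
      ring
    rw [hr]
    simp only [Multiset.map_cons, Multiset.prod_cons, Multiset.map_singleton,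
      Multiset.prod_singleton, aeval_C]
    rw [sgn_even (by omega) hk]
    simp only [map_pow, map_neg, map_one, map_mul, map_ofNat]
    have e1 : (-1 : AlgebraicClosure (ZMod p)) ^ n = 1 := by
      rw [hk, pow_mul]
      simp
    have e2 : (2 * (-1 : AlgebraicClosure (ZMod p)) ^ k) ^ n = 2 ^ (2 * k) := by
      rw [hk, mul_pow, c_pow, mul_one]
    have e3 := c_sq (R := AlgebraicClosure (ZMod p)) k
    rw [e1, e2, ← pow_mul, mul_comm k 2]
    linear_combination (2 ^ (2 * k) * (-1 : AlgebraicClosure (ZMod p)) ^ k) * e3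

theorem degree_geom {R : Type*} [CommRing R] [Nontrivial R] {e : ℕ} :
    (∑ i ∈ Finset.range e, (X : R[X]) ^ i).degree < e := by
  refine (degree_sum_le _ _).trans_lt ((Finset.sup_lt_iff (WithBot.bot_lt_coe e)).2 ?_)
  intro i hi
  refine (degree_X_pow_le i).trans_lt ?_
  exact WithBot.coe_lt_coe.2 (Finset.mem_range.1 hi)

/-- Case B. -/
theorem caseB (hp : p ≠ 2) {n k e : ℕ} (hk : n = 2 * k + 1) (hn : 2 * p < n) (he : 1 ≤ e)
    (hep : e < p) (hs : p ∣ n + 1 - e) : ∃ A : AData p n, A.Sq := by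
  have hp1 : 2 ≤ p := (Fact.out : p.Prime).two_le
  have hp3 : 3 ≤ p := by omega
  obtain ⟨m, hm⟩ : ∃ m, n + 1 - e = m + 1 + p := ⟨n - e - p, by omega⟩
  have hm1 : p ∣ m + 1 := by
    rw [hm] at hs
    exact (Nat.dvd_add_left (dvd_refl p)).1 hs
  have hm2 : p ≤ m + 1 := Nat.le_of_dvd (by omega) hm1
  have hcm := cast_neg_one hm1
  have he0 : (e : ZMod p) ≠ 0 := by
    rw [Ne, ZMod.natCast_eq_zero_iff]
    exact fun h => absurd (Nat.le_of_dvd he h) (by omega)
  have hc0 : (-1 : ZMod p) ^ k ≠ 0 := pow_ne_zero _ (neg_ne_zero.2 one_ne_zero)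
  have hκ : (-1 : ZMod p) ^ k * e ≠ 0 := mul_ne_zero hc0 he0
  set D : (ZMod p)[X] := X ^ e * (X - C 1) ^ m with hD
  set D₀ : (ZMod p)[X] := X * (X - C 1) with hD₀
  set S : (ZMod p)[X] := ∑ i ∈ Finset.range e, X ^ i with hS
  have hDm : D.Monic := (monic_X_pow e).mul ((monic_X_sub_C 1).pow _)
  have hDd : D.natDegree = e + m := by
    rw [hD, (monic_X_pow e).natDegree_mul ((monic_X_sub_C 1).pow _),
      natDegree_X_pow, natDegree_pow, natDegree_X_sub_C]
    ring
  have hdvd : ∃ N : ℕ, D ∣ D₀ ^ N := by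
    refine ⟨n, ?_⟩
    rw [hD, hD₀, mul_pow]
    exact mul_dvd_mul (pow_dvd_pow _ (by omega)) (pow_dvd_pow _ (by omega))
  have hrel : (derivative (C ((-1 : ZMod p) ^ k) * S) * D -
      C ((-1 : ZMod p) ^ k) * S * derivative D) * D₀ = C ((-1 : ZMod p) ^ k * e) * D := by
    have h1 := dl (X - C (1 : ZMod p)) m
    have h2 := dl (X : (ZMod p)[X]) e
    have h4 : S * (X - 1) = X ^ e - 1 := geom_sum_mul X e
    have h5 : derivative S * (X - 1) + S = derivative (X ^ e) := by
      have h6 := congrArg derivative h4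
      rw [derivative_mul, derivative_sub, derivative_sub, derivative_X, derivative_one] at h6
      linear_combination h6
    rw [hcm, derivative_X_sub_C] at h1
    rw [derivative_X, mul_one] at h2
    have h3 : derivative D = derivative (X ^ e) * (X - C 1) ^ m +
        X ^ e * derivative ((X - C 1) ^ m) := by
      rw [hD, derivative_mul]
    rw [derivative_C_mul, h3, hD, hD₀, C_mul, C_eq_natCast]
    generalize derivative ((X - C (1 : ZMod p)) ^ m) = P' at *
    generalize (X - C (1 : ZMod p)) ^ m = P at *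
    generalize derivative S = S' at *
    generalize derivative ((X : (ZMod p)[X]) ^ e) = Y' at *
    generalize (X : (ZMod p)[X]) ^ e = Y at *
    simp only [C_1] at *
    linear_combination (-C ((-1 : ZMod p) ^ k) * S * Y * X) * h1 +
      (C ((-1 : ZMod p) ^ k) * Y * P * X) * h5 +
      (C ((-1 : ZMod p) ^ k) * Y * P - C ((-1 : ZMod p) ^ k) * S * (X - 1) * P) * h2 +
      (-C ((-1 : ZMod p) ^ k) * (e : (ZMod p)[X]) * Y * P) * h4
  refine ⟨⟨D, D₀, C ((-1) ^ k) * S, (-1) ^ k * e, hDm, ?_, ?_, hdvd, ?_, ?_, ?_, ?_, ?_, hrel,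
    hκ⟩, ?_⟩
  · exact monic_X.mul (monic_X_sub_C 1)
  · exact mul_dvd_mul (dvd_pow_self X (by omega)) (dvd_pow_self _ (by omega))
  · have hd : derivative D₀ = 2 * X - 1 := by
      rw [hD₀, derivative_mul, derivative_X, derivative_X_sub_C, C_1]
      ring
    rw [separable_def, hd, hD₀]
    refine ⟨-4, 2 * X - 1, ?_⟩
    rw [C_1]
    ring
  · rw [hDd]
    omega
  · rw [hDd]
    omega
  · have h1 : (C ((-1 : ZMod p) ^ k) * S).degree < (e : WithBot ℕ) := by
      rw [degree_C_mul hc0]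
      exact degree_geom
    refine h1.trans_le ?_
    rw [degree_eq_natDegree hDm.ne_zero, hDd]
    have : e ≤ e + m := by omega
    exact_mod_cast this
  · exact fun b hb => mult_of_rel hDm.ne_zero hdvd hrel hκ b hb
  · refine ⟨(e : ZMod p) ^ k, ?_⟩
    have hr : D₀.aroots (AlgebraicClosure (ZMod p)) = 0 ::ₘ {1} := by
      apply aroots_eq
      rw [hD₀]
      simp only [Polynomial.map_mul, Polynomial.map_sub, map_X, C_1, Polynomial.map_one,
        Multiset.map_cons, Multiset.prod_cons, Multiset.map_singleton,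
        Multiset.prod_singleton, C_0, sub_zero]
    rw [hr]
    have h0 : aeval (0 : AlgebraicClosure (ZMod p)) S = 1 := by
      obtain ⟨e', rfl⟩ : ∃ e', e = e' + 1 := ⟨e - 1, by omega⟩
      rw [hS, map_sum, Finset.sum_range_succ']
      simp
    have h1 : aeval (1 : AlgebraicClosure (ZMod p)) S = e := by
      rw [hS, map_sum]
      simp
    simp only [Multiset.map_cons, Multiset.prod_cons, Multiset.map_singleton,
      Multiset.prod_singleton, map_mul, aeval_C, h0, h1]
    rw [sgn_odd hk]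
    simp only [map_pow, map_neg, map_one, map_natCast]
    have e1 : (-1 : AlgebraicClosure (ZMod p)) ^ n = -1 := by
      rw [hk, pow_succ, pow_mul]
      simp
    have e2 : ((-1 : AlgebraicClosure (ZMod p)) ^ k * e) ^ n =
        (-1 : AlgebraicClosure (ZMod p)) ^ k * (e : AlgebraicClosure (ZMod p)) ^ (2 * k + 1) := by
      rw [hk, mul_pow, pow_succ, c_pow, one_mul]
    rw [e1, e2, ← pow_mul, mul_comm k 2]
    ring

/-- Case C. -/
theorem caseC (hp : p ≠ 2) {n k : ℕ} (hk : n = 2 * k + 1) (hn : 2 * p < n) (hs : p ∣ n + 1) :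
    ∃ A : AData p n, A.Sq := by
  have hpo : Odd p := (Fact.out : p.Prime).odd_of_ne_two hp
  have hp1 : 2 ≤ p := (Fact.out : p.Prime).two_le
  have hp3 : 3 ≤ p := by omega
  obtain ⟨q, hq⟩ := hpo
  have h3p : 3 * p < n := by
    obtain ⟨a, ha⟩ := hs
    have ha2 : 2 < a := by
      by_contra h
      have : p * a ≤ p * 2 := Nat.mul_le_mul_left p (by omega)
      omega
    have ha3 : a ≠ 3 := by
      rintro rfl
      omega
    have : p * 4 ≤ p * a := Nat.mul_le_mul_left p (by omega)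
    omega
  obtain ⟨m, hm⟩ : ∃ m, n = m + 3 * p := ⟨n - 3 * p, by omega⟩
  have hm1 : p ∣ m + 1 := by
    have h1 : n + 1 = m + 1 + 3 * p := by omega
    rw [h1] at hs
    exact (Nat.dvd_add_left (dvd_mul_left p 3)).1 hs
  have hm2 : p ≤ m + 1 := Nat.le_of_dvd (by omega) hm1
  have hcm := cast_neg_one hm1
  have hcp : ((p - 1 : ℕ) : (ZMod p)[X]) = -1 := cast_neg_one (by
    rw [Nat.sub_add_cancel (by omega)])
  have hcq : (2 : (ZMod p)[X]) * ((q + 1 : ℕ) : (ZMod p)[X]) = 1 := by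
    have h1 : ((p : ℕ) : (ZMod p)[X]) = 0 := CharP.cast_eq_zero _ p
    have h2 : ((2 * q + 1 : ℕ) : (ZMod p)[X]) = ((p : ℕ) : (ZMod p)[X]) :=
      congrArg (Nat.cast : ℕ → (ZMod p)[X]) hq.symm
    rw [h1] at h2
    push_cast at h2 ⊢
    linear_combination h2
  have hc0 : (-1 : ZMod p) ^ k ≠ 0 := pow_ne_zero _ (neg_ne_zero.2 one_ne_zero)
  have hκ : 2 * (-1 : ZMod p) ^ k ≠ 0 := mul_ne_zero (two_ne hp) hc0
  set D : (ZMod p)[X] := X ^ 2 * (X - C 1) ^ m * (X ^ 2 + C 1) ^ (p - 1) with hD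
  set D₀ : (ZMod p)[X] := X * (X - C 1) * (X ^ 2 + C 1) with hD₀
  set S : (ZMod p)[X] := ∑ i ∈ Finset.range (q + 1), (X ^ 4) ^ i with hS
  set g : (ZMod p)[X] := C ((-1) ^ k) * ((1 + X) * S) with hg
  have hDm : D.Monic := ((monic_X_pow 2).mul ((monic_X_sub_C 1).pow _)).mul
    ((monic_X_pow_add_C 1 two_ne_zero).pow _)
  have hDd : D.natDegree = 2 + m + 2 * (p - 1) := by
    rw [hD, ((monic_X_pow 2).mul ((monic_X_sub_C 1).pow _)).natDegree_mul
      ((monic_X_pow_add_C 1 two_ne_zero).pow _),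
      (monic_X_pow 2).natDegree_mul ((monic_X_sub_C 1).pow _),
      natDegree_X_pow, natDegree_pow, natDegree_pow, natDegree_X_sub_C, natDegree_X_pow_add_C]
    ring
  have hdvd : ∃ N : ℕ, D ∣ D₀ ^ N := by
    refine ⟨n, ?_⟩
    rw [hD, hD₀, mul_pow, mul_pow]
    exact mul_dvd_mul (mul_dvd_mul (pow_dvd_pow _ (by omega)) (pow_dvd_pow _ (by omega)))
      (pow_dvd_pow _ (by omega))
  have hrel : (derivative g * D - g * derivative D) * D₀ = C (2 * (-1 : ZMod p) ^ k) * D := by
    have h1 := dl (X - C (1 : ZMod p)) m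
    have h2 := dl (X ^ 2 + C (1 : ZMod p)) (p - 1)
    have h3 : derivative D = 2 * X * (X - C 1) ^ m * (X ^ 2 + C 1) ^ (p - 1) +
        X ^ 2 * derivative ((X - C 1) ^ m) * (X ^ 2 + C 1) ^ (p - 1) +
        X ^ 2 * (X - C 1) ^ m * derivative ((X ^ 2 + C 1) ^ (p - 1)) := by
      rw [hD, derivative_mul, derivative_mul, derivative_X_pow]
      simp only [Nat.cast_ofNat, map_ofNat]
      ring
    have h4 : g * ((X - 1) * (X ^ 2 + 1)) = C ((-1) ^ k) * ((X ^ 4) ^ (q + 1) - 1) := by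
      have h5 : S * (X ^ 4 - 1) = (X ^ 4) ^ (q + 1) - 1 := geom_sum_mul (X ^ 4) (q + 1)
      rw [hg, ← h5]
      ring
    have h6 : derivative g * ((X - 1) * (X ^ 2 + 1)) + g * (3 * X ^ 2 - 2 * X + 1) =
        C ((-1) ^ k) * derivative ((X ^ 4) ^ (q + 1)) := by
      have h7 := congrArg derivative h4
      have h7a : derivative (C ((-1 : ZMod p) ^ k) * ((X ^ 4) ^ (q + 1) - 1)) =
          C ((-1) ^ k) * derivative ((X ^ 4) ^ (q + 1)) := by
        rw [derivative_C_mul, derivative_sub, derivative_one, sub_zero]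
      have h7b : derivative ((X - 1) * (X ^ 2 + 1) : (ZMod p)[X]) = 3 * X ^ 2 - 2 * X + 1 := by
        rw [derivative_mul, derivative_sub, derivative_add, derivative_X_pow, derivative_X,
          derivative_one]
        simp only [Nat.cast_ofNat, map_ofNat]
        ring
      rw [h7a, derivative_mul, h7b] at h7
      exact h7
    have h8 : derivative (((X : (ZMod p)[X]) ^ 4) ^ (q + 1)) * X =
        2 * ((X : (ZMod p)[X]) ^ 4) ^ (q + 1) := by
      have h9 := dl ((X : (ZMod p)[X]) ^ 4) (q + 1)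
      rw [derivative_X_pow] at h9
      simp only [Nat.cast_ofNat, map_ofNat] at h9
      have h10 : (X : (ZMod p)[X]) ^ 3 * (derivative (((X : (ZMod p)[X]) ^ 4) ^ (q + 1)) * X) =
          X ^ 3 * (2 * ((X : (ZMod p)[X]) ^ 4) ^ (q + 1)) := by
        have h11 : (X : (ZMod p)[X]) ^ (4 - 1) = X ^ 3 := rfl
        rw [h11] at h9
        linear_combination h9 + (2 * X ^ 3 * ((X : (ZMod p)[X]) ^ 4) ^ (q + 1)) * hcq
      exact mul_left_cancel₀ (pow_ne_zero 3 X_ne_zero) h10
    have hd2 : derivative (X ^ 2 + C (1 : ZMod p)) = 2 * X := by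
      rw [derivative_add, derivative_C, derivative_X_pow, add_zero]
      simp only [Nat.cast_ofNat, map_ofNat]
      ring
    rw [hcm, derivative_X_sub_C] at h1
    rw [hcp, hd2] at h2
    rw [h3, hD, hD₀, C_mul]
    generalize derivative ((X - C (1 : ZMod p)) ^ m) = P' at *
    generalize derivative ((X ^ 2 + C (1 : ZMod p)) ^ (p - 1)) = Q' at *
    generalize (X - C (1 : ZMod p)) ^ m = P at *
    generalize (X ^ 2 + C (1 : ZMod p)) ^ (p - 1) = Q at *
    generalize derivative (((X : (ZMod p)[X]) ^ 4) ^ (q + 1)) = U' at *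
    generalize ((X : (ZMod p)[X]) ^ 4) ^ (q + 1) = U at *
    generalize derivative g = g' at *
    simp only [C_1, map_ofNat] at *
    linear_combination (X ^ 3 * P * Q) * h6 + (C ((-1 : ZMod p) ^ k) * X ^ 2 * P * Q) * h8 -
      (g * X ^ 3 * Q * (X ^ 2 + 1)) * h1 - (g * X ^ 3 * P * (X - 1)) * h2 -
      (2 * X ^ 2 * P * Q) * h4
  refine ⟨⟨D, D₀, g, 2 * (-1) ^ k, hDm, ?_, ?_, hdvd, ?_, ?_, ?_, ?_, ?_, hrel, hκ⟩, ?_⟩
  · exact (monic_X.mul (monic_X_sub_C 1)).mul (monic_X_pow_add_C 1 two_ne_zero)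
  · exact mul_dvd_mul (mul_dvd_mul (dvd_pow_self X two_ne_zero) (dvd_pow_self _ (by omega)))
      (dvd_pow_self _ (by omega))
  · obtain ⟨h, hh⟩ := exists_half hp
    have hh' : 2 * C h = (1 : (ZMod p)[X]) := by
      rw [← C_1, ← hh, C_mul, map_ofNat]
    have hd : derivative D₀ = 4 * X ^ 3 - 3 * X ^ 2 + 2 * X - 1 := by
      rw [hD₀, C_1, derivative_mul, derivative_mul, derivative_sub,
        derivative_add, derivative_X_pow, derivative_X, derivative_one]
      simp only [Nat.cast_ofNat, map_ofNat]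
      ring
    rw [separable_def, hd, hD₀]
    refine ⟨C h ^ 2 * (-14 + 15 * X - 20 * X ^ 2),
      C h ^ 2 * (-4 + 6 * X - 5 * X ^ 2 + 5 * X ^ 3), ?_⟩
    simp only [C_1]
    linear_combination (2 * C h + 1) * hh'
  · rw [hDd]
    omega
  · rw [hDd]
    omega
  · refine degree_lt_degree ?_
    have h1 : S.natDegree ≤ 4 * q := by
      refine natDegree_sum_le_of_forall_le _ _ fun i hi => ?_
      rw [← pow_mul, natDegree_X_pow]
      have := Finset.mem_range.1 hi
      omega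
    have h2 : ((1 + X) * S : (ZMod p)[X]).natDegree ≤ 1 + 4 * q := by
      refine natDegree_mul_le.trans (Nat.add_le_add ?_ h1)
      refine (natDegree_add_le _ _).trans ?_
      simp
    rw [hDd]
    refine ((natDegree_C_mul_le _ _).trans h2).trans_lt ?_
    omega
  · exact fun b hb => mult_of_rel hDm.ne_zero hdvd hrel hκ b hb
  · refine ⟨2 ^ (k + 1), ?_⟩
    obtain ⟨i, hi⟩ := IsAlgClosed.exists_pow_nat_eq (-1 : AlgebraicClosure (ZMod p))
      (n := 2) (by norm_num)
    have hr : D₀.aroots (AlgebraicClosure (ZMod p)) = 0 ::ₘ 1 ::ₘ i ::ₘ {-i} := by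
      apply aroots_eq
      rw [hD₀]
      simp only [Polynomial.map_mul, Polynomial.map_sub, Polynomial.map_add, Polynomial.map_pow,
        map_X, C_1, C_neg, Polynomial.map_one,
        Multiset.map_cons, Multiset.prod_cons, Multiset.map_singleton,
        Multiset.prod_singleton, C_0, sub_zero]
      have hi' : (C i : (AlgebraicClosure (ZMod p))[X]) ^ 2 = -1 := by
        rw [← C_pow, hi, C_neg, C_1]
      linear_combination (X * (X - 1)) * hi'
    rw [hr]
    have hq1 : (2 : AlgebraicClosure (ZMod p)) * ((q : AlgebraicClosure (ZMod p)) + 1) = 1 := by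
      have h1 : ((p : ℕ) : AlgebraicClosure (ZMod p)) = 0 := CharP.cast_eq_zero _ p
      have h2 : ((2 * q + 1 : ℕ) : AlgebraicClosure (ZMod p)) =
          ((p : ℕ) : AlgebraicClosure (ZMod p)) :=
        congrArg (Nat.cast : ℕ → AlgebraicClosure (ZMod p)) hq.symm
      rw [h1] at h2
      push_cast at h2
      linear_combination h2
    have h0 : aeval (0 : AlgebraicClosure (ZMod p)) S = 1 := by
      rw [hS, map_sum, Finset.sum_range_succ']
      simp
    have hb : ∀ b : AlgebraicClosure (ZMod p), b ^ 4 = 1 →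
        aeval b S = (q : AlgebraicClosure (ZMod p)) + 1 := by
      intro b hb
      rw [hS, map_sum]
      simp [hb]
    have hi4 : i ^ 4 = 1 := by
      have : i ^ 4 = (i ^ 2) ^ 2 := by ring
      rw [this, hi]
      ring
    have hi4' : (-i) ^ 4 = 1 := by
      rw [← hi4]
      ring
    have hgb : ∀ b : AlgebraicClosure (ZMod p), aeval b g =
        (-1) ^ k * ((1 + b) * aeval b S) := by
      intro b
      rw [hg, map_mul, map_mul, aeval_C, map_add, map_one, aeval_X, map_pow, map_neg, map_one]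
    simp only [Multiset.map_cons, Multiset.prod_cons, Multiset.map_singleton,
      Multiset.prod_singleton, hgb, h0, hb 1 (one_pow 4), hb i hi4, hb (-i) hi4', map_mul]
    rw [sgn_odd hk]
    simp only [map_pow, map_neg, map_one, map_ofNat]
    have e1 : (-1 : AlgebraicClosure (ZMod p)) ^ n = -1 := by
      rw [hk, pow_succ, pow_mul]
      simp
    have e3 := c_sq (R := AlgebraicClosure (ZMod p)) k
    have e2 : (2 * (-1 : AlgebraicClosure (ZMod p)) ^ k) ^ n =
        2 ^ (2 * k + 1) * (-1 : AlgebraicClosure (ZMod p)) ^ k := by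
      rw [hk, mul_pow, pow_succ ((-1 : AlgebraicClosure (ZMod p)) ^ k), c_pow, one_mul]
    rw [e1, e2]
    generalize (-1 : AlgebraicClosure (ZMod p)) ^ k = c at *
    generalize (q : AlgebraicClosure (ZMod p)) + 1 = u at *
    have e4 : ((2 : AlgebraicClosure (ZMod p)) ^ (k + 1)) ^ 2 = 2 * 2 ^ (2 * k + 1) := by
      rw [← pow_mul]
      ring
    rw [e4]
    generalize (2 : AlgebraicClosure (ZMod p)) ^ (2 * k + 1) = w at *
    have e5 : c ^ 4 = 1 := by
      have : c ^ 4 = (c ^ 2) ^ 2 := by ring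
      rw [this, e3]
      ring
    have e6 : (1 + i) * (1 + -i) = 2 := by
      linear_combination -hi
    have e7 : 2 * w * (-1 * (c * ((1 + 0) * 1)) *
        (-1 * (c * ((1 + 1) * u)) * (-1 * (c * ((1 + i) * u)) * (-1 * (c * ((1 + -i) * u)))))) =
        c ^ 4 * (2 * u) * (2 * u) * w * ((1 + i) * (1 + -i) * u) := by
      ring
    rw [e7, e5, e6, hq1]
    linear_combination (-w) * e3

end H9Data

open H9Data in
theorem exists_adata (p : ℕ) [Fact p.Prime] (hp : p ≠ 2) (n : ℕ) (hn : p + 3 ≤ n)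
    (h : Even n ∨ 2 * p < n) (h' : n ≠ 2 * p) : ∃ A : AData p n, A.Sq := by
  have hp1 : 2 ≤ p := (Fact.out : p.Prime).two_le
  rcases Nat.even_or_odd' n with ⟨k, hk | hk⟩
  · by_cases hd : p ∣ n
    · exact caseD hp hn hk hd h'
    · exact caseA hn hk hd
  · have h2 : 2 * p < n := by
      rcases h with h | h
      · obtain ⟨j, hj⟩ := h
        omega
      · exact h
    have h3 := Nat.div_add_mod n p
    have h4 := Nat.mod_lt n (by omega : 0 < p)
    by_cases h5 : n % p + 1 = p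
    · refine caseC hp hk h2 ⟨n / p + 1, ?_⟩
      rw [mul_add, mul_one]
      omega
    · refine caseB hp (e := n % p + 1) hk h2 (by omega) (by omega) ⟨n / p, ?_⟩
      omega

end Pool.Agent.Helper41.AN
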